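import Pool.Agent.V11273.SN.Lnk5

set_option autoImplicit false

/-!
# Sharp constants for the even-order antiderivatives of `S(t)`

Under the Riemann hypothesis there are unique constants `δ_n` (`n ≥ 1`) for which every `S_n` (`n ≥ 1`) has mean
value zero, and for them, for every even `n ≥ 2`,
`-(A_n^- + o(1)) Λ_n(t) ≤ S_n(t) ≤ (A_n^+ + o(1)) Λ_n(t)` as `t → ∞`.
-/

open Filter Topology Pool.Agent.V11273.SN

theorem Pool.Agent.Results.MP_155064_nt.SharpEvenS.result (hRH : RiemannHypothesis) :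
    ∃ δ : ℕ → ℝ, (∀ n : ℕ, 1 ≤ n → MeanZero (Sn δ n)) ∧
      (∀ δ' : ℕ → ℝ, (∀ n : ℕ, 1 ≤ n → MeanZero (Sn δ' n)) → ∀ n : ℕ, 1 ≤ n → δ' n = δ n) ∧
      ∀ n : ℕ, 2 ≤ n → Even n → ∀ ε : ℝ, 0 < ε → ∀ᶠ t : ℝ in atTop,
        -((Aminus n + ε) * Lam n t) ≤ Sn δ n t ∧ Sn δ n t ≤ (Aplus n + ε) * Lam n t := by
  obtain ⟨δ, hδ⟩ := exists_delta hRH
  exact ⟨δ, hδ, fun δ' hδ' => unique_delta hRH hδ' hδ, fun n hn2 hn ε hε => final hRH hδ hn2 hn hε⟩
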